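import Mathlib
import Pool.Agent.DNet.Final2

/-!
# Average-type lower bound for the discrepancy of digital nets

For every dimension `d ≥ 2` and every prime `q` there is a constant `B > 0` such that for every
`m ≥ 2` and every `δ ∈ (0,1)` at least `(1 - δ) q^{d m²}` of the `d`-tuples `C` of `m × m` matrices
over `ZMod q` generate a digital net with (star) discrepancy at least
`δ B (log N)^{d-1} log log N / N`, `N = q^m`.

Outline of the proof (helper files `Pool/Agent/DNet/`).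
* `Kernel`, `Kernel2`, `Disc`: the discrepancy function at the `q`-adic grid points is expanded in
  characters; only dual vectors of the net contribute, and the coefficients are explicit.
* `Align`: for a set of dual vectors whose leading and second non-zero digits are in general
  position, all the main contributions can be made positive simultaneously at some grid point
  (averaging against a Riesz-type product); `Ltwo` is the `L²` variant.
* `Prob`, `Shapes`, `PartAB`: first and second moments of the number of dual vectors with given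
  leading digits, and bounds for the exceptional sets of tuples `C`.
* `Final`, `Final2`: choice of the parameters.
-/

namespace Pool.Agent.Results.MP_7c2179_nt.AverageLowerBound

open Finset

/-- The vector `(n_0, …, n_{m-1})` of base-`q` digits of `n`. -/
def digitVec (q m n : ℕ) : Fin m → ZMod q := fun i => ((n / q ^ (i : ℕ) % q : ℕ) : ZMod q)

/-- The coordinate `x_{n,j} = ∑_{i=1}^m y_{n,j,i} q^{-i}` of the `n`-th point of the digital net
generated by `C`, where `(y_{n,j,1}, …, y_{n,j,m})ᵀ = C_j (n_0, …, n_{m-1})ᵀ`. -/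
noncomputable def netPoint {q d m : ℕ} (C : Fin d → Matrix (Fin m) (Fin m) (ZMod q))
    (n : ℕ) (j : Fin d) : ℝ :=
  ∑ i : Fin m, ((((C j).mulVec (digitVec q m n)) i).val : ℝ) / (q : ℝ) ^ ((i : ℕ) + 1)

/-- `|#{0 ≤ n < N : x_n ∈ [u, v)} / N - λ([u, v))|` for the net generated by `C`, `N = q ^ m`. -/
noncomputable def boxDev {q d m : ℕ} (C : Fin d → Matrix (Fin m) (Fin m) (ZMod q))
    (u v : Fin d → ℝ) : ℝ :=
  |(Nat.card {n : ℕ // n < q ^ m ∧ ∀ j, u j ≤ netPoint C n j ∧ netPoint C n j < v j} : ℝ) /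
      (q : ℝ) ^ m - ∏ j, (v j - u j)|

/-- The discrepancy `D_N` of the net generated by `C`. -/
noncomputable def discrepancy {q d m : ℕ} (C : Fin d → Matrix (Fin m) (Fin m) (ZMod q)) : ℝ :=
  sSup {r : ℝ | ∃ u v : Fin d → ℝ, (∀ j, 0 ≤ u j ∧ u j ≤ v j ∧ v j ≤ 1) ∧ r = boxDev C u v}

/-- The star discrepancy `D_N^*` of the net generated by `C`: boxes anchored at the origin. -/
noncomputable def starDiscrepancy {q d m : ℕ} (C : Fin d → Matrix (Fin m) (Fin m) (ZMod q)) : ℝ :=
  sSup {r : ℝ | ∃ v : Fin d → ℝ, (∀ j, 0 ≤ v j ∧ v j ≤ 1) ∧ r = boxDev C 0 v}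

/-- `Φ_d(N) = (log N)^{d-1} log log N / N`. -/
noncomputable def Phi (d : ℕ) (N : ℝ) : ℝ := Real.log N ^ (d - 1) * Real.log (Real.log N) / N

section Bridge

variable {q : ℕ} [Fact q.Prime] {d m : ℕ}

lemma digitVec_injOn : Set.InjOn (digitVec q m) (↑(range (q ^ m)) : Set ℕ) := by
  intro a ha b hb hab
  rw [coe_range, Set.mem_Iio] at ha hb
  have hq : 0 < q := (Fact.out : q.Prime).pos
  have h1 : ∀ i : Fin m, a / q ^ (i : ℕ) % q = b / q ^ (i : ℕ) % q := by
    intro i
    have h := congrFun hab i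
    simp only [digitVec] at h
    have h2 := congrArg ZMod.val h
    rw [ZMod.val_natCast, ZMod.val_natCast, Nat.mod_mod, Nat.mod_mod] at h2
    exact h2
  have h3 : (finFunctionFinEquiv.symm (⟨a, ha⟩ : Fin (q ^ m)) : Fin m → Fin q) =
      finFunctionFinEquiv.symm (⟨b, hb⟩ : Fin (q ^ m)) := by
    funext i
    apply Fin.ext
    rw [finFunctionFinEquiv_symm_apply_val, finFunctionFinEquiv_symm_apply_val]
    exact h1 i
  have h4 := finFunctionFinEquiv.symm.injective h3
  exact congrArg Fin.val h4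

lemma image_digitVec : (range (q ^ m)).image (digitVec q m) = univ := by
  apply eq_univ_of_card
  rw [card_image_of_injOn digitVec_injOn, card_range, Fintype.card_fun, ZMod.card, Fintype.card_fin]

lemma netPoint_eq (C : Fin d → Matrix (Fin m) (Fin m) (ZMod q)) (n : ℕ) (j : Fin d) :
    netPoint C n j = (DNet.vl ((C j).mulVec (digitVec q m n)) : ℝ) / (q : ℝ) ^ m := by
  have hq0 : (q : ℝ) ≠ 0 := by exact_mod_cast (Fact.out : q.Prime).ne_zero
  unfold netPoint DNet.vl
  push_cast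
  rw [sum_div]
  refine sum_congr rfl fun i _ => ?_
  have h : (q : ℝ) ^ m = (q : ℝ) ^ (m - 1 - (i : ℕ)) * (q : ℝ) ^ ((i : ℕ) + 1) := by
    rw [← pow_add]
    congr 1
    have := i.2
    omega
  rw [h]
  field_simp

lemma count_nonneg_le (C : Fin d → Matrix (Fin m) (Fin m) (ZMod q)) (u v : Fin d → ℝ) :
    (Nat.card {n : ℕ // n < q ^ m ∧ ∀ j, u j ≤ netPoint C n j ∧ netPoint C n j < v j} : ℝ) /
      (q : ℝ) ^ m ≤ 1 := by
  classical
  have hq0 : (0 : ℝ) < (q : ℝ) ^ m := by
    have : (0 : ℝ) < q := by exact_mod_cast (Fact.out : q.Prime).pos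
    positivity
  rw [div_le_one hq0]
  have h : Nat.card {n : ℕ // n < q ^ m ∧ ∀ j, u j ≤ netPoint C n j ∧ netPoint C n j < v j} ≤
      Nat.card (range (q ^ m) : Set ℕ) := by
    apply Nat.card_mono (finite_toSet _)
    intro n hn
    rw [coe_range, Set.mem_Iio]
    exact hn.1
  rw [Nat.card_eq_fintype_card (α := (↑(range (q ^ m)) : Set ℕ))] at h
  simp only [coe_sort_coe, Fintype.card_coe, card_range] at h
  exact_mod_cast h

lemma boxDev_le_one (C : Fin d → Matrix (Fin m) (Fin m) (ZMod q)) {u v : Fin d → ℝ}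
    (h : ∀ j, 0 ≤ u j ∧ u j ≤ v j ∧ v j ≤ 1) : boxDev C u v ≤ 1 := by
  have h1 := count_nonneg_le C u v
  have h2 : (0 : ℝ) ≤ (Nat.card {n : ℕ // n < q ^ m ∧ ∀ j, u j ≤ netPoint C n j ∧
      netPoint C n j < v j} : ℝ) / (q : ℝ) ^ m := by positivity
  have h3 : 0 ≤ ∏ j, (v j - u j) := prod_nonneg fun j _ => by linarith [(h j).2.1]
  have h4 : ∏ j, (v j - u j) ≤ 1 := by
    apply prod_le_one
    · intro j _
      linarith [(h j).2.1]
    · intro j _
      linarith [(h j).1, (h j).2.2]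
  unfold boxDev
  rw [abs_le]
  constructor <;> linarith

lemma star_le_discrepancy (C : Fin d → Matrix (Fin m) (Fin m) (ZMod q)) :
    starDiscrepancy C ≤ discrepancy C := by
  unfold starDiscrepancy discrepancy
  apply csSup_le_csSup
  · refine ⟨1, ?_⟩
    rintro r ⟨u, v, h, rfl⟩
    exact boxDev_le_one C h
  · exact ⟨_, 0, by simp, rfl⟩
  · rintro r ⟨v, h, rfl⟩
    exact ⟨0, v, fun j => ⟨le_refl _, (h j).1, (h j).2⟩, rfl⟩

lemma boxDev_le_star (C : Fin d → Matrix (Fin m) (Fin m) (ZMod q)) {v : Fin d → ℝ}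
    (h : ∀ j, 0 ≤ v j ∧ v j ≤ 1) : boxDev C 0 v ≤ starDiscrepancy C := by
  apply le_csSup
  · refine ⟨1, ?_⟩
    rintro r ⟨v, h, rfl⟩
    exact boxDev_le_one C fun j => ⟨le_refl _, (h j).1, (h j).2⟩
  · exact ⟨v, h, rfl⟩

lemma card_box (C : Fin d → Matrix (Fin m) (Fin m) (ZMod q)) (X : Fin d → Fin m → ZMod q) :
    Nat.card {n : ℕ // n < q ^ m ∧ ∀ j, (0 : Fin d → ℝ) j ≤ netPoint C n j ∧
      netPoint C n j < (DNet.vl (X j) : ℝ) / (q : ℝ) ^ m} = DNet.cnt C X := by
  classical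
  have hq0 : (0 : ℝ) < (q : ℝ) ^ m := by
    have : (0 : ℝ) < q := by exact_mod_cast (Fact.out : q.Prime).pos
    positivity
  have h1 : ∀ n, (∀ j, (0 : Fin d → ℝ) j ≤ netPoint C n j ∧
      netPoint C n j < (DNet.vl (X j) : ℝ) / (q : ℝ) ^ m) ↔
      ∀ j, DNet.vl ((C j).mulVec (digitVec q m n)) < DNet.vl (X j) := by
    intro n
    refine forall_congr' fun j => ?_
    rw [netPoint_eq, div_lt_div_iff_of_pos_right hq0, Nat.cast_lt]
    constructor
    · exact fun h => h.2
    · intro h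
      refine ⟨?_, h⟩
      simp only [Pi.zero_apply]
      positivity
  unfold DNet.cnt
  rw [← image_digitVec, filter_image, card_image_of_injOn]
  · rw [Nat.card_congr (Equiv.subtypeEquivRight (q := fun n => n ∈ (range (q ^ m)).filter
      (fun n => ∀ j, DNet.vl ((C j).mulVec (digitVec q m n)) < DNet.vl (X j))) ?_)]
    · rw [Nat.card_eq_fintype_card, Fintype.card_coe]
    · intro n
      rw [mem_filter, mem_range, h1 n]
  · exact digitVec_injOn.mono (by
      rw [coe_filter, coe_range]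
      intro n hn
      exact mem_range.1 hn.1)

lemma abs_Dl_le (C : Fin d → Matrix (Fin m) (Fin m) (ZMod q)) (X : Fin d → Fin m → ZMod q) :
    |DNet.Dl C X| ≤ starDiscrepancy C := by
  have hq0 : (0 : ℝ) < (q : ℝ) ^ m := by
    have : (0 : ℝ) < q := by exact_mod_cast (Fact.out : q.Prime).pos
    positivity
  have h : boxDev C 0 (fun j => (DNet.vl (X j) : ℝ) / (q : ℝ) ^ m) = |DNet.Dl C X| := by
    unfold boxDev DNet.Dl
    rw [card_box]
    simp only [Pi.zero_apply, sub_zero]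
  rw [← h]
  apply boxDev_le_star
  intro j
  refine ⟨by positivity, ?_⟩
  rw [div_le_one hq0]
  exact_mod_cast (DNet.vl_lt (X j)).le

/-- comparison of `Φ` with the normalisation used in the helper files -/
lemma Phi_le (E : ℕ) (hm : 2 ≤ m) : Phi (E + 2) ((q : ℝ) ^ m) ≤
    5 * Real.log q ^ (E + 2) * (((q : ℝ)⁻¹) ^ m * (m : ℝ) ^ (E + 1) *
      (((Nat.log q m / 4 : ℕ) : ℝ) + 1)) := by
  have hq2 : 2 ≤ q := (Fact.out : q.Prime).two_le
  have hq2' : (2 : ℝ) ≤ q := by exact_mod_cast hq2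
  have hq0 : (0 : ℝ) < q := by linarith
  have hlq : 0 < Real.log q := Real.log_pos (by linarith)
  have hm0 : (0 : ℝ) < m := by
    have : 0 < m := by omega
    exact_mod_cast this
  set t : ℕ := Nat.log q m / 4 with ht
  have h1 : (m : ℝ) ≤ (q : ℝ) ^ (4 * t + 4) := by
    have h2 : m < q ^ (Nat.log q m + 1) := Nat.lt_pow_succ_log_self (by omega) m
    have h3 : q ^ (Nat.log q m + 1) ≤ q ^ (4 * t + 4) := Nat.pow_le_pow_right (by omega) (by omega)
    exact_mod_cast (h2.le.trans h3)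
  have h2 : Real.log m ≤ (4 * (t : ℝ) + 4) * Real.log q := by
    calc Real.log m ≤ Real.log ((q : ℝ) ^ (4 * t + 4)) := Real.log_le_log hm0 h1
      _ = _ := by rw [Real.log_pow]; push_cast; ring
  have h3 : Real.log (Real.log q) ≤ Real.log q := by
    have := Real.log_le_sub_one_of_pos hlq
    linarith
  have h4 : Real.log (Real.log ((q : ℝ) ^ m)) ≤ 5 * ((t : ℝ) + 1) * Real.log q := by
    rw [Real.log_pow, Real.log_mul hm0.ne' hlq.ne']
    have : (0 : ℝ) ≤ t * Real.log q := by positivity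
    nlinarith
  unfold Phi
  have h5 : E + 2 - 1 = E + 1 := by omega
  rw [h5, Real.log_pow] at *
  have h6 : ((m : ℝ) * Real.log q) ^ (E + 1) * Real.log (m * Real.log q) ≤
      ((m : ℝ) * Real.log q) ^ (E + 1) * (5 * ((t : ℝ) + 1) * Real.log q) :=
    mul_le_mul_of_nonneg_left h4 (by positivity)
  calc ((m : ℝ) * Real.log q) ^ (E + 1) * Real.log (m * Real.log q) / (q : ℝ) ^ m
      ≤ ((m : ℝ) * Real.log q) ^ (E + 1) * (5 * ((t : ℝ) + 1) * Real.log q) / (q : ℝ) ^ m := by
        gcongr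
    _ = _ := by
        rw [inv_pow, mul_pow]
        field_simp
        ring

end Bridge

/-- **Average-type lower bound for the discrepancy of digital nets.** For every `d ≥ 2` and every
prime `q` there is `B > 0` such that for every `m ≥ 2` and every `δ ∈ (0,1)`, at least
`(1 - δ) q ^ (d m²)` of the `d`-tuples `C` of `m × m` matrices over `ZMod q` satisfy
`δ B Φ_d(q ^ m) ≤ D_N^*(P_C)` and `δ B Φ_d(q ^ m) ≤ D_N(P_C)`. -/
theorem result (d q : ℕ) (hd : 2 ≤ d) (hq : q.Prime) :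
    ∃ B : ℝ, 0 < B ∧ ∀ m : ℕ, 2 ≤ m → ∀ δ : ℝ, 0 < δ → δ < 1 →
      (1 - δ) * (q : ℝ) ^ (d * m ^ 2) ≤
        Nat.card {C : Fin d → Matrix (Fin m) (Fin m) (ZMod q) //
          δ * B * Phi d ((q : ℝ) ^ m) ≤ starDiscrepancy C ∧
          δ * B * Phi d ((q : ℝ) ^ m) ≤ discrepancy C} := by
  classical
  have : Fact q.Prime := ⟨hq⟩
  obtain ⟨E, rfl⟩ : ∃ E, d = E + 2 := ⟨d - 2, by omega⟩
  obtain ⟨c, hc, hmain⟩ := DNet.combined q E
  have hlq : 0 < Real.log q := Real.log_pos (by exact_mod_cast hq.one_lt)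
  refine ⟨c / (5 * Real.log q ^ (E + 2)), by positivity, ?_⟩
  intro m hm δ h0 h1
  set B : ℝ := c / (5 * Real.log q ^ (E + 2)) with hB
  have hPhi := Phi_le (q := q) (m := m) E hm
  have hthr : δ * B * Phi (E + 2) ((q : ℝ) ^ m) ≤
      c * δ * (((q : ℝ)⁻¹) ^ m * (m : ℝ) ^ (E + 1) * (((Nat.log q m / 4 : ℕ) : ℝ) + 1)) := by
    calc δ * B * Phi (E + 2) ((q : ℝ) ^ m) ≤ δ * B * (5 * Real.log q ^ (E + 2) *
          (((q : ℝ)⁻¹) ^ m * (m : ℝ) ^ (E + 1) * (((Nat.log q m / 4 : ℕ) : ℝ) + 1))) :=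
          mul_le_mul_of_nonneg_left hPhi (by positivity)
      _ = _ := by
          rw [hB]
          field_simp
  have hbad := hmain m (by omega) δ h0 h1
  set S : Finset (DNet.Om q (E + 2) m) := DNet.BB q (E + 2) m (c * δ * (((q : ℝ)⁻¹) ^ m *
    (m : ℝ) ^ (E + 1) * (((Nat.log q m / 4 : ℕ) : ℝ) + 1))) with hS
  have hgood : ∀ C : DNet.Om q (E + 2) m, C ∉ S →
      δ * B * Phi (E + 2) ((q : ℝ) ^ m) ≤ starDiscrepancy C ∧
      δ * B * Phi (E + 2) ((q : ℝ) ^ m) ≤ discrepancy C := by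
    intro C hC
    have h2 : ∃ X, c * δ * (((q : ℝ)⁻¹) ^ m * (m : ℝ) ^ (E + 1) *
        (((Nat.log q m / 4 : ℕ) : ℝ) + 1)) ≤ |DNet.Dl C X| := by
      by_contra hcon
      push Not at hcon
      exact hC (mem_filter.2 ⟨mem_univ _, hcon⟩)
    obtain ⟨X, hX⟩ := h2
    have h3 : δ * B * Phi (E + 2) ((q : ℝ) ^ m) ≤ starDiscrepancy C :=
      (hthr.trans hX).trans (abs_Dl_le C X)
    exact ⟨h3, h3.trans (star_le_discrepancy C)⟩
  have hcard : ((Sᶜ).card : ℝ) ≤
      Nat.card {C : Fin (E + 2) → Matrix (Fin m) (Fin m) (ZMod q) //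
          δ * B * Phi (E + 2) ((q : ℝ) ^ m) ≤ starDiscrepancy C ∧
          δ * B * Phi (E + 2) ((q : ℝ) ^ m) ≤ discrepancy C} := by
    rw [Nat.card_eq_fintype_card, Fintype.card_subtype]
    have : Sᶜ ⊆ univ.filter (fun C : Fin (E + 2) → Matrix (Fin m) (Fin m) (ZMod q) =>
        δ * B * Phi (E + 2) ((q : ℝ) ^ m) ≤ starDiscrepancy C ∧
        δ * B * Phi (E + 2) ((q : ℝ) ^ m) ≤ discrepancy C) := by
      intro C hC
      exact mem_filter.2 ⟨mem_univ _, hgood C (mem_compl.1 hC)⟩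
    exact_mod_cast card_le_card this
  refine le_trans ?_ hcard
  have htot : ((univ : Finset (DNet.Om q (E + 2) m)).card : ℝ) = (q : ℝ) ^ ((E + 2) * m ^ 2) := by
    rw [DNet.card_Om, DNet.NN]
    congr 1
    ring
  have hadd : (S.card : ℝ) + (Sᶜ).card = (univ : Finset (DNet.Om q (E + 2) m)).card := by
    have := card_add_card_compl S
    rw [← card_univ] at this
    exact_mod_cast this
  have hNN : DNet.NN q (E + 2) m = (q : ℝ) ^ ((E + 2) * m ^ 2) := by rw [← DNet.card_Om, htot]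
  rw [hNN] at hbad
  rw [htot] at hadd
  linarith

end Pool.Agent.Results.MP_7c2179_nt.AverageLowerBound
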